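import Pool.Agent.Helper425.PA.Order

/-! The standard cut in the degrees of a countably saturated model of PA: the join of a degree
with the degree of the standard cut is a minimal cover. -/

set_option autoImplicit false
set_option linter.unusedSectionVars false

universe u

namespace Pool.Agent.Helper965.MinCover

open Pool.Agent.Helper425.PA

variable {M : Type u} [CommSemiring M] [LinearOrder M] [PeanoModel M]

/-- acceptance of the information `q` with the information `[0,n] ⊆ ω`, `[m,..) ∩ ω = ∅` and the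
information `p` about `Z` -/
def Acc (V : M → M → Prop) (q n m p : M) : Prop :=
  ∃ q' h, (∀ x, Mem x q → Mem x q') ∧ V q' h ∧ (∀ x, x < h →
    ((Mem ((x + x) + (x + x) + 1) h → Mem (x + x + 1) p) ∧
      (Mem ((x + x) + (x + x)) h → Mem (x + x) p)) ∧
    ((Mem ((x + x + 1) + (x + x + 1) + 1) h → x ≤ n) ∧
      (Mem ((x + x + 1) + (x + x + 1)) h → m ≤ x)))

lemma acc_sigma1 {V : M → M → Prop} (hV : Sigma1 (fun v : ℕ → M => V (v 0) (v 1)))
    {fq fn fm fp : (ℕ → M) → M} (hq : Tm fq) (hn : Tm fn) (hm : Tm fm) (hp : Tm fp) :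
    Sigma1 fun v => Acc V (fq v) (fn v) (fm v) (fp v) := by
  have d1 : Tm (fun w : ℕ → M => w 0 + w 0) := (Tm.var 0).add (Tm.var 0)
  have d2 : Tm (fun w : ℕ → M => w 0 + w 0 + 1) := d1.add (Tm.const 1)
  refine Sigma1.ex' (Sigma1.ex' (Sigma1.and (Sigma1.ballMem hq.tail.tail
    (Delta0.mem (Tm.var 0) (Tm.var 2)).sigma1) (Sigma1.and (Sigma1.sub2 hV (Tm.var 1) (Tm.var 0))
    (Delta0.ball' (Tm.var 0) (Delta0.and (Delta0.and ?_ ?_) (Delta0.and ?_ ?_))).sigma1)))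
  · exact (Delta0.mem ((d1.add d1).add (Tm.const 1)) (Tm.var 1)).imp
      (Delta0.mem d2 hp.tail.tail.tail)
  · exact (Delta0.mem (d1.add d1) (Tm.var 1)).imp (Delta0.mem d1 hp.tail.tail.tail)
  · exact (Delta0.mem ((d2.add d2).add (Tm.const 1)) (Tm.var 1)).imp
      (Delta0.le (Tm.var 0) hn.tail.tail.tail)
  · exact (Delta0.mem (d2.add d2) (Tm.var 1)).imp (Delta0.le hm.tail.tail.tail (Tm.var 0))

lemma Acc.mono {V : M → M → Prop} {q n m p q₀ n' m' p' : M} (h : Acc V q n m p)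
    (hq : ∀ x, Mem x q₀ → Mem x q) (hn : n ≤ n') (hm : m' ≤ m) (hp : ∀ x, Mem x p → Mem x p') :
    Acc V q₀ n' m' p' := by
  obtain ⟨q', h, h1, h2, h3⟩ := h
  refine ⟨q', h, fun x hx => h1 x (hq x hx), h2, fun x hx => ?_⟩
  obtain ⟨⟨a, b⟩, c, d⟩ := h3 x hx
  exact ⟨⟨fun y => hp _ (a y), fun y => hp _ (b y)⟩, fun y => (c y).trans hn,
    fun y => hm.trans (d y)⟩

lemma le_of_mem_aux {x y h : M} (hy : Mem y h) (hxy : x ≤ y) : x < h := lt_of_le_of_lt hxy hy.lt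

lemma acc_sound {V : M → M → Prop} {Z C : Set M}
    (hred : ∀ q, El q ⊆ Lit C ↔ ∃ p, El p ⊆ Lit (jn Z (omega M)) ∧ V q p)
    {q n m p : M} (hn : n ∈ omega M) (hm : m ∉ omega M) (hp : El p ⊆ Lit Z)
    (h : Acc V q n m p) : El q ⊆ Lit C := by
  obtain ⟨q', h, h1, h2, h3⟩ := h
  have hq' : El q' ⊆ Lit C := by
    refine (hred q').2 ⟨h, ?_, h2⟩
    intro y hy
    have hy' : Mem y h := hy
    obtain ⟨z, hz⟩ := even_or_odd y
    obtain ⟨x, hx⟩ := even_or_odd z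
    rcases hz with rfl | rfl
    · rcases hx with rfl | rfl
      · have hxh : x < h := le_of_mem_aux hy' ((le_double x).trans (le_double _))
        rw [even_mem_lit, SDj_even]
        exact even_mem_lit.1 (hp ((h3 x hxh).1.2 hy'))
      · have hxh : x < h := le_of_mem_aux hy'
          (((le_double x).trans le_self_add).trans (le_double _))
        rw [even_mem_lit, SDj_odd]
        intro hxo
        exact hm (mem_omega_of_le ((h3 x hxh).2.2 hy') hxo)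
    · rcases hx with rfl | rfl
      · have hxh : x < h := le_of_mem_aux hy'
          (((le_double x).trans (le_double _)).trans le_self_add)
        rw [odd_mem_lit, SDj_even]
        exact odd_mem_lit.1 (hp ((h3 x hxh).1.1 hy'))
      · have hxh : x < h := le_of_mem_aux hy'
          ((((le_double x).trans le_self_add).trans (le_double _)).trans le_self_add)
        rw [odd_mem_lit, SDj_odd]
        exact mem_omega_of_le ((h3 x hxh).2.1 hy') hn
  exact fun x hx => hq' (h1 x hx)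

lemma acc_complete (hns : ∃ m : M, m ∉ omega M) {V : M → M → Prop} {Z C : Set M}
    (hred : ∀ q, El q ⊆ Lit C ↔ ∃ p, El p ⊆ Lit (jn Z (omega M)) ∧ V q p)
    {q : M} (hq : El q ⊆ Lit C) :
    ∃ n : ℕ, ∃ m, m ∉ omega M ∧ ∃ p, El p ⊆ Lit Z ∧ Acc V q (n : M) m p := by
  obtain ⟨h, hh, hV⟩ := (hred q).1 hq
  have d1 : Tm (fun w : ℕ → M => w 0 + w 0) := (Tm.var 0).add (Tm.var 0)
  have d2 : Tm (fun w : ℕ → M => w 0 + w 0 + 1) := d1.add (Tm.const 1)
  obtain ⟨n, hn⟩ := underspill hns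
    (P := fun n => ∀ x, Mem ((x + x + 1) + (x + x + 1) + 1) h → x ≤ n)
    (Arith.all' ((Arith.mem ((d2.add d2).add (Tm.const 1)) (Tm.const h)).imp
      (Arith.le (Tm.var 0) (Tm.var 1)))) (by
      intro m hm x hx
      have := odd_mem_lit.1 (hh hx)
      rw [SDj_odd] at this
      obtain ⟨k, rfl⟩ := this
      exact (nat_lt k hm).le)
  obtain ⟨m, hm, hmP⟩ := overspill hns
    (P := fun m => ∀ x, Mem ((x + x + 1) + (x + x + 1)) h → m ≤ x)
    (Arith.all' ((Arith.mem (d2.add d2) (Tm.const h)).imp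
      (Arith.le (Tm.var 1) (Tm.var 0)))) (by
      intro k x hx
      have := even_mem_lit.1 (hh hx)
      rw [SDj_odd] at this
      exact (nat_lt k this).le)
  obtain ⟨p, hp⟩ := exists_code (fun l => ∃ m, SDj_RX l m ∧ Mem m h)
    (Arith.ex' ((SDj_arX (Tm.var 1) (Tm.var 0)).and (Arith.mem (Tm.var 0) (Tm.const h)))) h
    (by rintro l ⟨m, hm, hm'⟩; exact lt_of_le_of_lt (SDj_leX hm).1 hm'.lt)
  refine ⟨n, m, hm, p, ?_, q, h, fun x hx => hx, hV, fun x _ => ⟨⟨fun hx => ?_, fun hx => ?_⟩,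
    hn x, hmP x⟩⟩
  · intro l hl
    obtain ⟨m, hm, hm'⟩ := (hp l).1 hl
    exact (SDj_iffX hm).1 (hh hm')
  · exact (hp _).2 ⟨_, ⟨x, Or.inl ⟨rfl, rfl⟩⟩, hx⟩
  · exact (hp _).2 ⟨_, ⟨x, Or.inr ⟨rfl, rfl⟩⟩, hx⟩

/-- opposite literals -/
def Opp (l l' x : M) : Prop := (l = x + x ∧ l' = x + x + 1) ∨ (l = x + x + 1 ∧ l' = x + x)

lemma exists_opp {C : Set M} {l : M} (hl : l ∉ Lit C) : ∃ l' ∈ Lit C, ∃ x, Opp l l' x := by
  obtain ⟨x, rfl | rfl⟩ := even_or_odd l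
  · refine ⟨x + x + 1, odd_mem_lit.2 ?_, x, Or.inl ⟨rfl, rfl⟩⟩
    by_contra hx
    exact hl (even_mem_lit.2 hx)
  · refine ⟨x + x, even_mem_lit.2 ?_, x, Or.inr ⟨rfl, rfl⟩⟩
    intro hx
    exact hl (odd_mem_lit.2 hx)

lemma not_opp {C : Set M} {l l' x : M} (h : Opp l l' x) (h1 : l ∈ Lit C) (h2 : l' ∈ Lit C) :
    False := by
  rcases h with ⟨rfl, rfl⟩ | ⟨rfl, rfl⟩
  · exact (even_mem_lit.1 h1) (odd_mem_lit.1 h2)
  · exact (even_mem_lit.1 h2) (odd_mem_lit.1 h1)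

/-- The main step: if the infos of `Z` and of `C` are countably directed and `C` is computable from
`Z ⊕ ω`, then `C` is computable from `Z`. -/
theorem below_join (hsat : CountablySaturated M) {Z C : Set M}
    (h : ERed (Lit C) (Lit (jn Z (omega M)))) (hC : SD (Lit C)) (hZ : SD (Lit Z)) :
    ERed (Lit C) (Lit Z) := by
  have hns := exists_nonstd hsat
  obtain ⟨V, hV, hred⟩ := h
  -- one standard n
  have F4 : ∃ n : ℕ, ∀ q, El q ⊆ Lit C → ∃ m, m ∉ omega M ∧ ∃ p, El p ⊆ Lit Z ∧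
      Acc V q (n : M) m p := by
    by_contra hcon
    push Not at hcon
    choose q hq hq' using hcon
    obtain ⟨Q, hQ, hQ'⟩ := hC q hq
    obtain ⟨n, m, hm, p, hp, hacc⟩ := acc_complete hns hred hQ
    exact hq' n m hm p hp (hacc.mono (fun x hx => hQ' n hx) le_rfl le_rfl fun x hx => hx)
  obtain ⟨n, hn⟩ := F4
  -- one standard m
  have F5 : ∃ m : ℕ, ∀ l, l ∉ Lit C → ∀ k, (∀ x, Mem x k ↔ x = l) → ∀ p, El p ⊆ Lit Z →
      ¬ Acc V k (n : M) (m : M) p := by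
    by_contra hcon
    push Not at hcon
    choose l hl k hk p hp hacc using hcon
    choose l' hl' x hx using fun m => exists_opp (hl m)
    choose r hr using fun m => exists_code_single (l' m)
    obtain ⟨R, hR, hR'⟩ := hC r (by
      intro m y hy
      rw [(hr m y).1 hy]
      exact hl' m)
    obtain ⟨P, hP, hP'⟩ := hZ p hp
    obtain ⟨m, hm, k', l₁, l₂, x₁, h1, h2, h3, h4⟩ := overspill hns
      (P := fun m => ∃ k' l₁ l₂ x₁, (∀ y, Mem y k' ↔ y = l₁) ∧ Opp l₁ l₂ x₁ ∧ Mem l₂ R ∧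
        Acc V k' (n : M) m P) (by
        refine Arith.ex' (Arith.ex' (Arith.ex' (Arith.ex' (Arith.and (Arith.all' ?_)
          (Arith.and (Arith.or (Arith.and ?_ ?_) (Arith.and ?_ ?_)) (Arith.and ?_ ?_))))))
        · exact (Arith.mem (Tm.var 0) (Tm.var 4)).iff (Arith.eq (Tm.var 0) (Tm.var 3))
        · exact Arith.eq (Tm.var 2) ((Tm.var 0).add (Tm.var 0))
        · exact Arith.eq (Tm.var 1) (((Tm.var 0).add (Tm.var 0)).add (Tm.const 1))
        · exact Arith.eq (Tm.var 2) (((Tm.var 0).add (Tm.var 0)).add (Tm.const 1))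
        · exact Arith.eq (Tm.var 1) ((Tm.var 0).add (Tm.var 0))
        · exact Arith.mem (Tm.var 1) (Tm.const R)
        · exact (acc_sigma1 hV (Tm.var 3) (Tm.const (n : M)) (Tm.var 4) (Tm.const P)).arith)
      (by
        intro m
        refine ⟨k m, l m, l' m, x m, hk m, hx m, hR' m ((hr m _).2 rfl), ?_⟩
        exact (hacc m).mono (fun y hy => hy) le_rfl le_rfl fun y hy => hP' m hy)
    have h5 : El k' ⊆ Lit C := acc_sound hred (natCast_mem_omega n) hm hP h4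
    exact not_opp h2 (h5 ((h1 _).2 rfl)) (hR h3)
  obtain ⟨m, hm⟩ := F5
  refine ⟨fun q p => Acc V q (n : M) (m : M) p,
    acc_sigma1 hV (Tm.var 0) (Tm.const _) (Tm.const _) (Tm.var 1), fun q => ⟨fun hq => ?_, ?_⟩⟩
  · obtain ⟨m', hm', p, hp, hacc⟩ := hn q hq
    exact ⟨p, hp, hacc.mono (fun x hx => hx) le_rfl (nat_lt m hm').le fun x hx => hx⟩
  · rintro ⟨p, hp, hacc⟩ l hl
    by_contra hlC
    obtain ⟨k, hk⟩ := exists_code_single l
    refine hm l hlC k hk p hp (hacc.mono (fun x hx => ?_) le_rfl le_rfl fun x hx => hx)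
    rw [(hk x).1 hx]
    exact hl

/-- the join is the least upper bound -/
theorem jn_le {X Y W : Set M} (hX : ERed (Lit X) (Lit W)) (hY : ERed (Lit Y) (Lit W)) :
    ERed (Lit (jn X Y)) (Lit W) := by
  obtain ⟨V₁, hV₁, hr₁⟩ := hX
  obtain ⟨V₂, hV₂, hr₂⟩ := hY
  have d1 : Tm (fun w : ℕ → M => w 0 + w 0) := (Tm.var 0).add (Tm.var 0)
  have d2 : Tm (fun w : ℕ → M => w 0 + w 0 + 1) := d1.add (Tm.const 1)
  refine ⟨fun q p => ∃ q₁ q₂ p₁ p₂, (V₁ q₁ p₁ ∧ V₂ q₂ p₂) ∧ ((∀ x, Mem x p₁ → Mem x p) ∧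
    (∀ x, Mem x p₂ → Mem x p)) ∧ (∀ x, x < q →
    ((Mem ((x + x) + (x + x) + 1) q → Mem (x + x + 1) q₁) ∧
      (Mem ((x + x) + (x + x)) q → Mem (x + x) q₁)) ∧
    ((Mem ((x + x + 1) + (x + x + 1) + 1) q → Mem (x + x + 1) q₂) ∧
      (Mem ((x + x + 1) + (x + x + 1)) q → Mem (x + x) q₂))), ?_, fun q => ⟨fun hq => ?_, ?_⟩⟩
  · refine Sigma1.ex' (Sigma1.ex' (Sigma1.ex' (Sigma1.ex' (Sigma1.and (Sigma1.and
      (Sigma1.sub2 hV₁ (Tm.var 3) (Tm.var 1)) (Sigma1.sub2 hV₂ (Tm.var 2) (Tm.var 0)))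
      (Sigma1.and (Sigma1.and (Sigma1.ballMem (Tm.var 1) (Delta0.mem (Tm.var 0)
        (Tm.var 6)).sigma1) (Sigma1.ballMem (Tm.var 0) (Delta0.mem (Tm.var 0)
        (Tm.var 6)).sigma1)) (Delta0.ball' (Tm.var 4) (Delta0.and (Delta0.and ?_ ?_)
        (Delta0.and ?_ ?_))).sigma1)))))
    · exact (Delta0.mem ((d1.add d1).add (Tm.const 1)) (Tm.var 5)).imp (Delta0.mem d2 (Tm.var 4))
    · exact (Delta0.mem (d1.add d1) (Tm.var 5)).imp (Delta0.mem d1 (Tm.var 4))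
    · exact (Delta0.mem ((d2.add d2).add (Tm.const 1)) (Tm.var 5)).imp (Delta0.mem d2 (Tm.var 3))
    · exact (Delta0.mem (d2.add d2) (Tm.var 5)).imp (Delta0.mem d1 (Tm.var 3))
  · obtain ⟨q₁, hq₁⟩ := exists_code (fun l => ∃ m, SDj_RX l m ∧ Mem m q)
      (Arith.ex' ((SDj_arX (Tm.var 1) (Tm.var 0)).and (Arith.mem (Tm.var 0) (Tm.const q)))) q
      (by rintro l ⟨m, hm, hm'⟩; exact lt_of_le_of_lt (SDj_leX hm).1 hm'.lt)
    obtain ⟨q₂, hq₂⟩ := exists_code (fun l => ∃ m, SDj_RY l m ∧ Mem m q)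
      (Arith.ex' ((SDj_arY (Tm.var 1) (Tm.var 0)).and (Arith.mem (Tm.var 0) (Tm.const q)))) q
      (by rintro l ⟨m, hm, hm'⟩; exact lt_of_le_of_lt (SDj_leY hm).1 hm'.lt)
    obtain ⟨p₁, hp₁, hv₁⟩ := (hr₁ q₁).1 (by
      intro l hl
      obtain ⟨m, hm, hm'⟩ := (hq₁ l).1 hl
      exact (SDj_iffX hm).1 (hq hm'))
    obtain ⟨p₂, hp₂, hv₂⟩ := (hr₂ q₂).1 (by
      intro l hl
      obtain ⟨m, hm, hm'⟩ := (hq₂ l).1 hl
      exact (SDj_iffY hm).1 (hq hm'))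
    obtain ⟨p, hp⟩ := exists_code_union p₁ p₂
    refine ⟨p, ?_, q₁, q₂, p₁, p₂, ⟨hv₁, hv₂⟩, ⟨fun x hx => (hp x).2 (Or.inl hx),
      fun x hx => (hp x).2 (Or.inr hx)⟩, fun x _ => ⟨⟨fun hx => ?_, fun hx => ?_⟩,
      fun hx => ?_, fun hx => ?_⟩⟩
    · intro x hx
      rcases (hp x).1 hx with h | h
      · exact hp₁ h
      · exact hp₂ h
    · exact (hq₁ _).2 ⟨_, ⟨x, Or.inl ⟨rfl, rfl⟩⟩, hx⟩
    · exact (hq₁ _).2 ⟨_, ⟨x, Or.inr ⟨rfl, rfl⟩⟩, hx⟩
    · exact (hq₂ _).2 ⟨_, ⟨x, Or.inl ⟨rfl, rfl⟩⟩, hx⟩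
    · exact (hq₂ _).2 ⟨_, ⟨x, Or.inr ⟨rfl, rfl⟩⟩, hx⟩
  · rintro ⟨p, hp, q₁, q₂, p₁, p₂, ⟨hv₁, hv₂⟩, ⟨hp₁, hp₂⟩, h3⟩ y hy
    have hQ₁ : El q₁ ⊆ Lit X := (hr₁ q₁).2 ⟨p₁, fun x hx => hp (hp₁ x hx), hv₁⟩
    have hQ₂ : El q₂ ⊆ Lit Y := (hr₂ q₂).2 ⟨p₂, fun x hx => hp (hp₂ x hx), hv₂⟩
    have hy' : Mem y q := hy
    obtain ⟨z, hz⟩ := even_or_odd y
    obtain ⟨x, hx⟩ := even_or_odd z
    rcases hz with rfl | rfl
    · rcases hx with rfl | rfl
      · have hxh : x < q := le_of_mem_aux hy' ((le_double x).trans (le_double _))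
        rw [even_mem_lit, SDj_even]
        exact even_mem_lit.1 (hQ₁ ((h3 x hxh).1.2 hy'))
      · have hxh : x < q := le_of_mem_aux hy'
          (((le_double x).trans le_self_add).trans (le_double _))
        rw [even_mem_lit, SDj_odd]
        exact even_mem_lit.1 (hQ₂ ((h3 x hxh).2.2 hy'))
    · rcases hx with rfl | rfl
      · have hxh : x < q := le_of_mem_aux hy'
          (((le_double x).trans (le_double _)).trans le_self_add)
        rw [odd_mem_lit, SDj_even]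
        exact odd_mem_lit.1 (hQ₁ ((h3 x hxh).1.1 hy'))
      · have hxh : x < q := le_of_mem_aux hy'
          ((((le_double x).trans le_self_add).trans (le_double _)).trans le_self_add)
        rw [odd_mem_lit, SDj_odd]
        exact odd_mem_lit.1 (hQ₂ ((h3 x hxh).2.1 hy'))

theorem dichotomy (hsat : CountablySaturated M) {Z C : Set M}
    (h : ERed (Lit C) (Lit (jn Z (omega M)))) :
    ERed (Lit C) (Lit Z) ∨ ERed (Lit (omega M)) (Lit C) := by
  by_cases hC : SD (Lit C)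
  · by_cases hZ : SD (Lit Z)
    · exact Or.inl (below_join hsat h hC hZ)
    · exact Or.inl (h.trans (jn_le (ERed.refl _) (ered_of_not_SD hsat hZ)))
  · exact Or.inr (ered_of_not_SD hsat hC)

/-- regular (piecewise coded) sets have countably directed infos -/
theorem SD_of_regular (hsat : CountablySaturated M) {Z : Set M}
    (hZ : ∀ a, ∃ k, ∀ x, Mem x k ↔ x ∈ Z ∧ x < a) : SD (Lit Z) := by
  intro p hp
  obtain ⟨a, ha⟩ := hsat (fun n x => p n < x)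
    (fun n => Arith.lt (Tm.const (p n)) (Tm.var 0)) (by
      intro n
      obtain ⟨b, hb⟩ := exists_bound_finite (S := p '' Set.Iio n) ((Set.finite_Iio n).image p)
      exact ⟨b, fun i hi => hb _ ⟨i, hi, rfl⟩⟩)
  obtain ⟨k, hk⟩ := hZ a
  obtain ⟨q, hq⟩ := exists_code (fun l => ∃ x, x < a ∧ ((l = x + x + 1 ∧ Mem x k) ∨
      (l = x + x ∧ ¬ Mem x k)))
    (Arith.ex' ((Arith.lt (Tm.var 0) (Tm.const a)).and (Arith.or
      (Arith.and (Arith.eq (Tm.var 1) (((Tm.var 0).add (Tm.var 0)).add (Tm.const 1)))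
        (Arith.mem (Tm.var 0) (Tm.const k)))
      (Arith.and (Arith.eq (Tm.var 1) ((Tm.var 0).add (Tm.var 0)))
        (Arith.mem (Tm.var 0) (Tm.const k)).not)))) (a + a + 1 + 1) (by
      rintro l ⟨x, hx, ⟨rfl, _⟩ | ⟨rfl, _⟩⟩
      · refine lt_succ_iff'.2 ?_
        gcongr
      · refine lt_succ_iff'.2 (le_trans ?_ le_self_add)
        gcongr)
  refine ⟨q, ?_, ?_⟩
  · intro l hl
    obtain ⟨x, hx, ⟨rfl, h⟩ | ⟨rfl, h⟩⟩ := (hq l).1 hl
    · exact odd_mem_lit.2 ((hk x).1 h).1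
    · exact even_mem_lit.2 fun hxZ => h ((hk x).2 ⟨hxZ, hx⟩)
  · intro n l hl
    have hla : l < a := (Mem.lt (hl : Mem l (p n))).trans (ha n)
    have hl' := hp n hl
    obtain ⟨x, rfl | rfl⟩ := even_or_odd l
    · have hxa : x < a := lt_of_le_of_lt (le_double x) hla
      exact (hq _).2 ⟨x, hxa, Or.inr ⟨rfl, fun h => even_mem_lit.1 hl' ((hk x).1 h).1⟩⟩
    · have hxa : x < a := lt_of_le_of_lt ((le_double x).trans le_self_add) hla
      exact (hq _).2 ⟨x, hxa, Or.inl ⟨rfl, (hk x).2 ⟨odd_mem_lit.1 hl', hxa⟩⟩⟩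

end Pool.Agent.Helper965.MinCover
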